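import Pool.Statements.S05004
import Pool.Agent.Work.MP_700ccb_an.Gap

set_option autoImplicit false
open Pool Pool.MP_700ccb_an

namespace Pool.Agent.S05004

/-- The negation of the preceding statement: For every real Banach space X, every continuous linear A from X to its dual with A x x ≥ 0, and every maximally monotone set-valued B from X to the dual, the operator x ↦ A x + B x is maximally monotone. -/
theorem result :
    ¬ (∀ (X : Type) [NormedAddCommGroup X] [NormedSpace ℝ X] [CompleteSpace X]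
      (A : X →L[ℝ] (X →L[ℝ] ℝ)) (B : X → Set (X →L[ℝ] ℝ)),
      (∀ x : X, 0 ≤ A x x) →
      (∀ (x y : X) (u v : X →L[ℝ] ℝ), u ∈ B x → v ∈ B y → 0 ≤ (u - v) (x - y)) →
      (∀ (x : X) (u : X →L[ℝ] ℝ),
          (∀ (y : X) (v : X →L[ℝ] ℝ), v ∈ B y → 0 ≤ (u - v) (x - y)) → u ∈ B x) →
      ((∀ (x y : X) (u v : X →L[ℝ] ℝ), u ∈ B x → v ∈ B y →
          0 ≤ ((A x + u) - (A y + v)) (x - y)) ∧
        (∀ (x : X) (w : X →L[ℝ] ℝ),
          (∀ (y : X) (v : X →L[ℝ] ℝ), v ∈ B y → 0 ≤ (w - (A y + v)) (x - y)) →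
            ∃ u ∈ B x, w = A x + u))) := by
  intro h
  obtain ⟨M, hM, hmax, hgap, h0⟩ := Pool.Agent.Work.MP_700ccb_an.exists_example
  have h1 := h Pool.Agent.Work.MP_700ccb_an.X Pool.Agent.Work.MP_700ccb_an.A
    (fun x => {u | (x, u) ∈ M})
    (fun x => by rw [Pool.Agent.Work.MP_700ccb_an.A_apply]; nlinarith [sq_nonneg x.1])
    (fun x y u v hu hv => hM (x, u) hu (y, v) hv)
    (fun x u hx => hmax (x, u) (fun q hq => hx q.1 q.2 hq))
  obtain ⟨u, hu, -⟩ := h1.2 0 0 (fun y v hv => h0 (y, v) hv)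
  have h2 := hgap (0, u) hu
  norm_num at h2

end Pool.Agent.S05004
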