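import Pool.Agent.Work.MP_700ccb_an.Transfer

set_option autoImplicit false

open scoped ZeroAtInfty

namespace Pool.Agent.Results.MP_700ccb_an.RankOne

variable {X : Type} [NormedAddCommGroup X] [NormedSpace ℝ X]

/-- The graph of a set-valued operator from `X` to its dual. -/
def graph (B : X → Set (X →L[ℝ] ℝ)) : Set (X × (X →L[ℝ] ℝ)) := {p | p.2 ∈ B p.1}

/-- Monotone operators. -/
def IsMonotone (B : X → Set (X →L[ℝ] ℝ)) : Prop :=
  ∀ p ∈ graph B, ∀ q ∈ graph B, 0 ≤ (p.2 - q.2) (p.1 - q.1)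

/-- Maximally monotone: monotone, and the graph is not properly contained in the graph of a
monotone operator. -/
def IsMaxMonotone (B : X → Set (X →L[ℝ] ℝ)) : Prop :=
  IsMonotone B ∧ ¬ ∃ B' : X → Set (X →L[ℝ] ℝ), IsMonotone B' ∧ graph B ⊂ graph B'

/-- The pointwise sum `(A + B) x = {A x + u : u ∈ B x}`. -/
def addOp (A : X →L[ℝ] (X →L[ℝ] ℝ)) (B : X → Set (X →L[ℝ] ℝ)) : X → Set (X →L[ℝ] ℝ) :=
  fun x => {v | ∃ u ∈ B x, v = A x + u}

/-- On the real Banach space `c₀` of null sequences with the supremum norm. -/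
theorem result : ∃ (A : C₀(ℕ, ℝ) →L[ℝ] (C₀(ℕ, ℝ) →L[ℝ] ℝ))
    (B : C₀(ℕ, ℝ) → Set (C₀(ℕ, ℝ) →L[ℝ] ℝ)),
    (∀ x y, A x y = x 0 * y 0) ∧ (∀ x, 0 ≤ A x x) ∧ IsMaxMonotone B ∧
    (∀ x u, u ∈ B x → 1 < |x 0|) ∧ ¬ IsMaxMonotone (addOp A B) := by
  open Pool.Agent.Work.MP_700ccb_an in
  obtain ⟨M, hM, hmax, hgap, h0⟩ := exists_example_c0
  open Pool.Agent.Work.MP_700ccb_an in
  refine ⟨ev0.smulRight ev0, fun x => {u | (x, u) ∈ M}, fun x y => rfl,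
    fun x => mul_self_nonneg (x 0), ⟨hM, ?_⟩,
    fun x u hu => (one_lt_sq_iff_one_lt_abs _).1 (hgap (x, u) hu), ?_⟩
  · rintro ⟨B', hB', h1, h2⟩
    exact h2 (fun p hp => hmax p (fun q hq => hB' p hp q (h1 hq)))
  · rintro ⟨h1, h2⟩
    open Pool.Agent.Work.MP_700ccb_an in
    refine h2 ⟨fun x => {v | v ∈ addOp (ev0.smulRight ev0) (fun x => {u | (x, u) ∈ M}) x ∨
      (x = 0 ∧ v = 0)}, ?_, fun p hp => Or.inl hp, fun h => ?_⟩
    · have key : ∀ q : C₀(ℕ, ℝ) × (C₀(ℕ, ℝ) →L[ℝ] ℝ), q ∈ graph (addOp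
          (Pool.Agent.Work.MP_700ccb_an.ev0.smulRight Pool.Agent.Work.MP_700ccb_an.ev0)
            (fun x => {u | (x, u) ∈ M})) → 0 ≤ q.2 q.1 := by
        rintro ⟨y, v⟩ ⟨u, hu, hv⟩
        simp only at hv
        rw [hv]
        exact h0 (y, u) hu
      rintro ⟨x, u⟩ (hp | ⟨hx, hu⟩) ⟨y, v⟩ (hq | ⟨hy, hv⟩)
      · exact h1 _ hp _ hq
      · simp only at hy hv
        simpa [hy, hv] using key _ hp
      · simp only at hx hu
        simpa [hx, hu] using key _ hq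
      · simp only at hx hu hy hv
        simp [hx, hu, hy, hv]
    · obtain ⟨u, hu, -⟩ := h (show ((0, 0) : C₀(ℕ, ℝ) × (C₀(ℕ, ℝ) →L[ℝ] ℝ)) ∈ graph _ from
        Or.inr ⟨rfl, rfl⟩)
      have h3 := hgap (0, u) hu
      norm_num at h3

end Pool.Agent.Results.MP_700ccb_an.RankOne
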